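import Pool.Agent.Helper26.KToOne.Defs
import Pool.Agent.Helper26.KToOne.Nec

/-!
# When is there an exactly `k`-to-1 map between two finite graphs?

Main result: for `k ≥ 2` and finite connected graphs `G`, `H` with more than one vertex there is a
continuous exactly `k`-to-1 map from `|G|` onto `|H|` if and only if, after at most `|V(G)|`
subdivisions of edges of `H`, there is a routing of `G` in the subdivided graph (a placement of
the vertices of `G` and walks for the edges of `G`) with the explicit numerical properties
collected in `Routing.Admissible`.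
-/

namespace Pool.Agent.Results.MP_cde9db_gt.KToOneCriterion

open Pool.Agent.Helper26.KToOne

/-- **Characterisation of the pairs of graphs admitting an exactly `k`-to-1 map.** -/
theorem result (k : ℕ) (hk : 2 ≤ k) {V W : Type} [Fintype V] [Fintype W] [Nontrivial V]
    [Nontrivial W] (G : SimpleGraph V) (H : SimpleGraph W) (hG : G.Connected)
    (hH : H.Connected) :
    HasKToOneMap k G H ↔
      ∃ n ≤ Fintype.card V, ∃ (W' : Type) (_ : Fintype W') (H' : SimpleGraph W')
        (R : Routing G H'), Subdivision H n H' ∧ R.Admissible k := by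
  obtain ⟨cX⟩ := exists_realChart hG
  obtain ⟨cY⟩ := exists_realChart hH
  obtain ⟨pos, hpos⟩ := exists_pos G
  have hadj : ∀ v, ∃ u, G.Adj v u := fun v => hG.preconnected.exists_adj_of_nontrivial v
  constructor
  · rintro ⟨f, hf, -, hfib⟩
    obtain ⟨n, hn, W', hW', H', cY', hsub, hpt⟩ :=
      exists_subdivision (Finset.univ : Finset V) (fun v => f (cX.pt v)) cY
    let _ : Fintype W' := Fintype.ofFinite W'
    choose q hq using fun v => hpt v (Finset.mem_univ v)
    have hfib' : ∀ y, (f ⁻¹' {y}).encard = k := by
      intro y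
      have h1 := hfib y
      have h2 : (f ⁻¹' {y}).Finite := Set.finite_of_ncard_ne_zero (by omega)
      rw [← h2.cast_ncard_eq, h1]
    obtain ⟨L, h1, h2, h3, h4, h5, h6⟩ := lazy_of_map cX cY' pos hpos f hf k (by omega) hfib' q
      (fun v => (hq v).symm)
    obtain ⟨R, hR⟩ := routing_of_lazy hk hadj pos hpos q L h1 h2 h3 h4 h5 h6
    exact ⟨n, by simpa using hn, W', inferInstance, H', R, hsub, hR⟩
  · rintro ⟨n, -, W', hW', H', R, hsub, hR⟩
    obtain ⟨cY'⟩ := chart_of_subdivision hsub ⟨cY⟩
    obtain ⟨L, h1, h2, h3, h4⟩ := lazy_of_routing hk R hR pos hpos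
    obtain ⟨f, hf, hfib⟩ := exists_map_of_lazy cX cY' pos hpos R.place L h1 h2 k h3 h4
    refine ⟨f, hf, ?_, ?_⟩
    · intro y
      have h5 : (f ⁻¹' {y}).Nonempty := by
        rw [← Set.encard_ne_zero, hfib y]
        have : k ≠ 0 := by omega
        exact_mod_cast this
      exact h5
    · intro y
      rw [Set.ncard, hfib y]
      rfl

end Pool.Agent.Results.MP_cde9db_gt.KToOneCriterion
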